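import Pool.Agent.TH108.WPMain

/-!
The varieties of `ℓ`-groups in which free products preserve solubility of the word problem:
only the trivial variety has this property.
-/

set_option autoImplicit false

namespace Pool.Agent.Results.MP_e5681c_al.OnlyTrivialVariety

open Pool.Agent.TH108

/-- **Complete answer to Q1.** A variety of `ℓ`-groups has the property that its free products
preserve solubility of the word problem if and only if it is the trivial variety. Moreover there
are a fixed `4`-generator abelian `ℓ`-group `G` and a fixed `2`-generator abelian `ℓ`-group `H`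
with soluble word problems which belong to every nontrivial variety `V`, and whose `V`-free
product exists and has an insoluble word problem, for every nontrivial variety `V`. -/
theorem result :
    (∀ E : Set (LTm ℕ × LTm ℕ), PreservesSolubility E ↔ TrivialVariety E) ∧
    ∃ (G H : Type) (_ : LGroup G) (_ : LGroup H) (g : Fin 4 → G) (h : Fin 2 → H),
      (∀ a b : G, a * b = b * a) ∧ (∀ a b : H, a * b = b * a) ∧
      Generates g ∧ Generates h ∧ SolubleWP g ∧ SolubleWP h ∧
      ∀ E : Set (LTm ℕ × LTm ℕ), ¬ TrivialVariety E →
        InVariety E G ∧ InVariety E H ∧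
        (∃ (P : Type) (_ : LGroup P) (i : G → P) (j : H → P), IsFreeProduct E i j) ∧
        ∀ (P : Type) (_ : LGroup P) (i : G → P) (j : H → P), IsFreeProduct E i j →
          ¬ SolubleWP (Sum.elim (fun x => i (g x)) (fun y => j (h y))) := by
  refine ⟨preserves_iff, GG, Multiplicative ZZ, inferInstance, inferInstance, gg, hh, GG_comm,
    fun a b => mul_comm a b, SQ.generates, hh_generates, GG_soluble, HH_soluble, ?_⟩
  intro E hE
  refine ⟨GG_inVariety (inVariety_Z hE), inVariety_ZZ (inVariety_Z hE),
    exists_freeProduct E GG (Multiplicative ZZ), ?_⟩
  intro P _ i j hP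
  exact main_neg hE hP

end Pool.Agent.Results.MP_e5681c_al.OnlyTrivialVariety
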